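import Pool.Agent.W164.MO.Defs
import Pool.Agent.W86.MO.NRH

/-!
# Task EX of project MO: the example when RH fails (all lemmas by helper86)
-/

set_option autoImplicit false

namespace Pool.Agent.W880.MO

open Pool.Agent.W86.MO

theorem ex : Pool.Agent.W164.MO.S_EX := by
  intro α hz ha ha1
  have h0 : 0 < α.re := by linarith
  exact ⟨F α, F_one α, F_mul α, F_local α h0 ha1, ‖α‖ / α.re + 1,
    fun n hn => partial_bound α h0 (G_zero α h0 ha1 hz) n hn⟩

end Pool.Agent.W880.MO
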